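import Mathlib

set_option autoImplicit false

/-!
Double counting through `Function.update`, and a sampler on `ZMod Q × ZMod Q`.
-/

namespace Pool.Agent.Helper19.Dom

open Finset

/-- Exchanging one coordinate of a tuple with an extra variable. -/
def swapEquiv {ι Ω : Type*} [DecidableEq ι] (j : ι) : (ι → Ω) × Ω ≃ (ι → Ω) × Ω where
  toFun p := (Function.update p.1 j p.2, p.1 j)
  invFun p := (Function.update p.1 j p.2, p.1 j)
  left_inv := by rintro ⟨ω, x⟩; simp
  right_inv := by rintro ⟨ω, x⟩; simp

/-- Double counting through `Function.update`. -/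
theorem sum_card_update {ι Ω : Type*} [Fintype ι] [DecidableEq ι] [Fintype Ω]
    (j : ι) (P : (ι → Ω) → Prop) [DecidablePred P] :
    ∑ ω : ι → Ω, (univ.filter (fun x => P (Function.update ω j x))).card
      = Fintype.card Ω * (univ.filter P).card := by
  have h1 : ∀ ω : ι → Ω, (univ.filter (fun x => P (Function.update ω j x))).card
      = ∑ x : Ω, if P (swapEquiv j (ω, x)).1 then 1 else 0 := by
    intro ω
    rw [Finset.card_filter]
    rfl
  rw [Finset.sum_congr rfl (fun ω _ => h1 ω)]
  rw [← Fintype.sum_prod_type' (f := fun (ω : ι → Ω) (x : Ω) =>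
    if P (swapEquiv j (ω, x)).1 then 1 else 0)]
  rw [Equiv.sum_comp (swapEquiv j) (fun p : (ι → Ω) × Ω => if P p.1 then 1 else 0)]
  rw [Fintype.sum_prod_type_right, Finset.sum_congr rfl (g := fun _ => (univ.filter P).card)]
  · rw [Finset.sum_const, Finset.card_univ, smul_eq_mul]
  · intro x _
    rw [Finset.card_filter]

/-- If for every `ω` few values of the coordinate `j` are bad then few `ω` are bad. -/
theorem card_le_of_update {ι Ω : Type*} [Fintype ι] [DecidableEq ι] [Fintype Ω] [Nonempty Ω]
    (j : ι) (P : (ι → Ω) → Prop) [DecidablePred P] (c : ℝ)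
    (h : ∀ ω : ι → Ω, ((univ.filter (fun x => P (Function.update ω j x))).card : ℝ)
      ≤ c * Fintype.card Ω) :
    ((univ.filter P).card : ℝ) ≤ c * (Fintype.card (ι → Ω) : ℝ) := by
  have h1 := sum_card_update j P
  have h2 : ((∑ ω : ι → Ω, (univ.filter (fun x => P (Function.update ω j x))).card : ℕ) : ℝ)
      ≤ ∑ _ω : ι → Ω, c * (Fintype.card Ω : ℝ) := by
    push_cast
    exact Finset.sum_le_sum (fun ω _ => h ω)
  rw [h1, Finset.sum_const, nsmul_eq_mul, Finset.card_univ] at h2
  push_cast at h2
  have h3 : (0 : ℝ) < Fintype.card Ω := by exact_mod_cast Fintype.card_pos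
  have h4 : (Fintype.card Ω : ℝ) * ((univ.filter P).card : ℝ)
      ≤ (Fintype.card Ω : ℝ) * (c * (Fintype.card (ι → Ω) : ℝ)) := by
    refine le_trans h2 (le_of_eq ?_)
    ring
  exact le_of_mul_le_mul_left h4 h3

end Pool.Agent.Helper19.Dom
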