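import Mathlib

set_option autoImplicit false

/-!
Averaging over tuples, and a greedy choice of a pool of vertices.
-/

namespace Pool.Agent.Helper19.Dom

open Finset

/-- If every `q`-tuple of elements of `Z` is matched by a common `u ∈ V`, and
`|V| δ^q ≤ 1`, then some `u` matches a proportion `δ` of `Z`, for every weighting. -/
theorem exists_heavy {V Z : Type*} [Fintype V] [Fintype Z]
    (good : Z → V → Prop) [∀ u, DecidablePred (fun z => good z u)] (q : ℕ) (hq : 0 < q)
    (δ : ℝ) (h : ∀ f : Fin q → Z, ∃ u, ∀ i, good (f i) u)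
    (hn : (Fintype.card V : ℝ) * δ ^ q ≤ 1) (_hδ : 0 < δ) (w : Z → ℝ) (hw : ∀ z, 0 ≤ w z)
    (hW : 0 < ∑ z, w z) :
    ∃ u, δ * ∑ z, w z ≤ ∑ z, if good z u then w z else 0 := by
  classical
  by_contra hcon
  push Not at hcon
  set W := ∑ z, w z with hWdef
  have hZ : Nonempty Z := by
    by_contra hne
    rw [not_nonempty_iff] at hne
    rw [hWdef, Finset.univ_eq_empty, Finset.sum_empty] at hW
    exact lt_irrefl _ hW
  have hV : Nonempty V := by
    obtain ⟨z⟩ := hZ
    obtain ⟨u, -⟩ := h (fun _ => z)
    exact ⟨u⟩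
  have h1 : W ^ q ≤ ∑ u : V, (∑ z, if good z u then w z else 0) ^ q := by
    calc W ^ q = ∑ f : Fin q → Z, ∏ i, w (f i) := by
          rw [hWdef, Fintype.sum_pow]
      _ ≤ ∑ f : Fin q → Z, ∑ u : V, ∏ i, (if good (f i) u then w (f i) else 0) := by
          apply Finset.sum_le_sum
          intro f _
          obtain ⟨u, hu⟩ := h f
          have h2 : ∏ i, w (f i) = ∏ i, (if good (f i) u then w (f i) else 0) := by
            apply Finset.prod_congr rfl
            intro i _
            rw [if_pos (hu i)]
          rw [h2]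
          apply Finset.single_le_sum
            (f := fun u : V => ∏ i, (if good (f i) u then w (f i) else 0)) _ (mem_univ u)
          intro u _
          apply Finset.prod_nonneg
          intro i _
          split_ifs
          · exact hw _
          · exact le_rfl
      _ = ∑ u : V, (∑ z, if good z u then w z else 0) ^ q := by
          rw [Finset.sum_comm]
          apply Finset.sum_congr rfl
          intro u _
          rw [Fintype.sum_pow]
  have h2 : ∑ u : V, (∑ z, if good z u then w z else 0) ^ q < ∑ _u : V, (δ * W) ^ q := by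
    apply Finset.sum_lt_sum_of_nonempty Finset.univ_nonempty
    intro u _
    apply pow_lt_pow_left₀ (hcon u) _ hq.ne'
    apply Finset.sum_nonneg
    intro z _
    split_ifs
    · exact hw _
    · exact le_rfl
  rw [Finset.sum_const, Finset.card_univ, nsmul_eq_mul, mul_pow, ← mul_assoc] at h2
  have h3 : (Fintype.card V : ℝ) * δ ^ q * W ^ q ≤ 1 * W ^ q :=
    mul_le_mul_of_nonneg_right hn (by positivity)
  linarith

/-- Greedy choice of a pool: the number of good indices is large for every `z`. -/
theorem exists_pool {V Z Ω : Type*} [Fintype V] [Fintype Z] [Fintype Ω] [DecidableEq Ω]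
    (good : Ω → Z → V → Prop) [∀ ω z u, Decidable (good ω z u)] (q : ℕ) (hq : 0 < q)
    (δ : ℝ) (h : ∀ ω, ∀ f : Fin q → Z, ∃ u, ∀ i, good ω (f i) u)
    (hn : (Fintype.card V : ℝ) * δ ^ q ≤ 1) (hδ : 0 < δ) (hδ1 : δ ≤ 1) [Nonempty Z] :
    ∃ y : Ω → V, ∀ z, δ / 2 * Fintype.card Ω - Real.log (Fintype.card Z) ≤
      ((univ.filter (fun ω => good ω z (y ω))).card : ℝ) := by
  classical
  have hV : Nonempty V ∨ IsEmpty Ω := by
    rcases isEmpty_or_nonempty Ω with hΩ | ⟨⟨ω⟩⟩
    · exact Or.inr hΩ
    · obtain ⟨z⟩ := (inferInstance : Nonempty Z)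
      obtain ⟨u, -⟩ := h ω (fun _ => z)
      exact Or.inl ⟨u⟩
  have key : ∀ S : Finset Ω, ∃ y : Ω → V,
      ∑ z : Z, ((1 : ℝ) / 2) ^ (S.filter (fun ω => good ω z (y ω))).card
        ≤ Fintype.card Z * (1 - δ / 2) ^ S.card := by
    intro S
    induction S using Finset.induction_on with
    | empty =>
      rcases hV with ⟨⟨v⟩⟩ | hΩ
      · exact ⟨fun _ => v, by simp⟩
      · exact ⟨fun ω => (hΩ.false ω).elim, by simp⟩
    | insert a S ha ih =>
      obtain ⟨y, hy⟩ := ih
      set w : Z → ℝ := fun z => ((1 : ℝ) / 2) ^ (S.filter (fun ω => good ω z (y ω))).card with hw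
      have hwpos : ∀ z, 0 < w z := fun z => by rw [hw]; positivity
      obtain ⟨u, hu⟩ := exists_heavy (good a) q hq δ (h a) hn hδ w (fun z => (hwpos z).le)
        (Finset.sum_pos (fun z _ => hwpos z) Finset.univ_nonempty)
      refine ⟨Function.update y a u, ?_⟩
      have h1 : ∀ z, ((1 : ℝ) / 2) ^ ((insert a S).filter
          (fun ω => good ω z (Function.update y a u ω))).card
          = w z - 1 / 2 * (if good a z u then w z else 0) := by
        intro z
        have h2 : S.filter (fun ω => good ω z (Function.update y a u ω))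
            = S.filter (fun ω => good ω z (y ω)) := by
          apply Finset.filter_congr
          intro ω hω
          rw [Function.update_of_ne (by rintro rfl; exact ha hω)]
        rw [Finset.filter_insert, Function.update_self, h2]
        by_cases hg : good a z u
        · rw [if_pos hg, if_pos hg, Finset.card_insert_of_notMem (by simp [ha]), pow_succ, hw]
          ring
        · rw [if_neg hg, if_neg hg, hw]
          ring
      rw [Finset.sum_congr rfl (fun z _ => h1 z), Finset.sum_sub_distrib, ← Finset.mul_sum,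
        Finset.card_insert_of_notMem ha, pow_succ]
      have h3 : 0 ≤ 1 - δ / 2 := by linarith
      have h4 := mul_le_mul_of_nonneg_right hy h3
      have h5 : ∑ z, w z - 1 / 2 * ∑ z, (if good a z u then w z else 0)
          ≤ (∑ z, w z) * (1 - δ / 2) := by linarith
      calc _ ≤ (∑ z, w z) * (1 - δ / 2) := h5
        _ ≤ _ := by rw [hw]; linarith
  obtain ⟨y, hy⟩ := key univ
  refine ⟨y, fun z => ?_⟩
  set c := (univ.filter (fun ω => good ω z (y ω))).card with hc
  have h1 : ((1 : ℝ) / 2) ^ c ≤ Fintype.card Z * (1 - δ / 2) ^ (Fintype.card Ω) := by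
    refine le_trans ?_ (le_trans hy (le_of_eq (by rw [Finset.card_univ])))
    apply Finset.single_le_sum
      (f := fun z => ((1 : ℝ) / 2) ^ (univ.filter (fun ω => good ω z (y ω))).card) _ (mem_univ z)
    intro z _
    positivity
  have h2 : (1 - δ / 2) ^ (Fintype.card Ω) ≤ Real.exp (-(δ / 2 * Fintype.card Ω)) := by
    have h3 : 1 - δ / 2 ≤ Real.exp (-(δ / 2)) := by
      have := Real.add_one_le_exp (-(δ / 2))
      linarith
    calc (1 - δ / 2) ^ (Fintype.card Ω) ≤ (Real.exp (-(δ / 2))) ^ (Fintype.card Ω) :=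
          pow_le_pow_left₀ (by linarith) h3 _
      _ = Real.exp (-(δ / 2 * Fintype.card Ω)) := by
          rw [← Real.exp_nat_mul]
          congr 1
          ring
  have hZ0 : (0 : ℝ) < Fintype.card Z := by exact_mod_cast Fintype.card_pos
  have h3 : ((1 : ℝ) / 2) ^ c ≤ Real.exp (Real.log (Fintype.card Z) - δ / 2 * Fintype.card Ω) := by
    rw [sub_eq_add_neg, Real.exp_add, Real.exp_log hZ0]
    exact le_trans h1 (mul_le_mul_of_nonneg_left h2 hZ0.le)
  have h4 : Real.exp (-(c : ℝ)) ≤ ((1 : ℝ) / 2) ^ c := by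
    have h5 : Real.exp (-1) ≤ 1 / 2 := by
      rw [Real.exp_neg, one_div]
      apply inv_anti₀ (by norm_num)
      have := Real.add_one_le_exp (1 : ℝ)
      linarith
    calc Real.exp (-(c : ℝ)) = (Real.exp (-1)) ^ c := by
          rw [← Real.exp_nat_mul]
          congr 1
          ring
      _ ≤ (1 / 2) ^ c := pow_le_pow_left₀ (Real.exp_pos _).le h5 _
  have h5 := Real.exp_le_exp.1 (le_trans h4 h3)
  linarith

end Pool.Agent.Helper19.Dom
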