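import Mathlib
import Pool.Agent.Helper19.Dom.Count
import Pool.Agent.Helper19.Dom.Pool

set_option autoImplicit false
set_option linter.unusedSectionVars false

/-!
Every tournament is contained in every system with the property `S_k` on `n` vertices, under
numerical conditions.
-/

namespace Pool.Agent.Helper19.Dom

open Finset

section

variable {V Ω : Type*} [Fintype V] [DecidableEq V] [Fintype Ω] [DecidableEq Ω]

open scoped Classical in
/-- The context of the `i`-th pool. -/
noncomputable def ctx {m : ℕ} (T : Fin m → Fin m → Prop) (R : Ω → Finset Ω)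
    (y : Fin m → Ω → V) (i : Fin m) (x : Ω) : Finset V :=
  (univ.filter (fun j => j < i ∧ T j i)).biUnion (fun j => (R x).image (y j))

theorem card_ctx_le {m s : ℕ} (T : Fin m → Fin m → Prop) (R : Ω → Finset Ω)
    (hR : ∀ x, (R x).card ≤ s) (y : Fin m → Ω → V) (i : Fin m) (x : Ω) :
    (ctx T R y i x).card ≤ m * s := by
  classical
  unfold ctx
  refine le_trans Finset.card_biUnion_le ?_
  refine le_trans (Finset.sum_le_card_nsmul _ _ s (fun j _ =>
    le_trans Finset.card_image_le (hR x))) ?_
  rw [smul_eq_mul]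
  apply Nat.mul_le_mul_right
  refine le_trans (Finset.card_filter_le _ _) ?_
  simp

theorem ctx_congr {m : ℕ} (T : Fin m → Fin m → Prop) (R : Ω → Finset Ω)
    (y y' : Fin m → Ω → V) (i : Fin m) (x : Ω) (h : ∀ j, j < i → y j = y' j) :
    ctx T R y i x = ctx T R y' i x := by
  classical
  unfold ctx
  apply Finset.biUnion_congr rfl
  intro j hj
  rw [mem_filter] at hj
  rw [h j hj.2.1]

theorem exists_cover {m : ℕ} (v : V) (B : Finset V) (hB : B.card ≤ m) :
    ∃ Z : Fin m → V, B ⊆ univ.image Z := by
  refine ⟨fun j => if h : (j : ℕ) < B.card then (B.equivFin.symm ⟨j, h⟩ : V) else v, ?_⟩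
  intro b hb
  rw [mem_image]
  have h1 : ((B.equivFin ⟨b, hb⟩ : Fin B.card) : ℕ) < m := lt_of_lt_of_le (Fin.is_lt _) hB
  refine ⟨⟨B.equivFin ⟨b, hb⟩, h1⟩, mem_univ _, ?_⟩
  simp

/-- Successive choice of the pools. -/
theorem exists_pools {m k s q : ℕ} (Esc : Finset V → V → Prop)
    (anti : ∀ A B u, A ⊆ B → Esc B u → Esc A u)
    (sk : ∀ A : Finset V, A.card ≤ k → ∃ u, Esc A u)
    (T : Fin m → Fin m → Prop) (R : Ω → Finset Ω) (hR : ∀ x, (R x).card ≤ s)
    (hk : m * s + q * m ≤ k) (hq : 0 < q) (δ : ℝ) (hδ : 0 < δ) (hδ1 : δ ≤ 1)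
    (hn : (Fintype.card V : ℝ) * δ ^ q ≤ 1)
    (hM : m * Real.log (Fintype.card V) ≤ δ / 4 * Fintype.card Ω) :
    ∃ y : Fin m → Ω → V, ∀ (i : Fin m) (B : Finset V), B.card ≤ m → ∃ N : Finset Ω,
      δ / 4 * Fintype.card Ω ≤ (N.card : ℝ) ∧ ∀ x ∈ N, Esc (ctx T R y i x ∪ B) (y i x) := by
  classical
  obtain ⟨v0, -⟩ := sk ∅ (by simp)
  have key : ∀ t : ℕ, t ≤ m → ∃ y : Fin m → Ω → V, ∀ (i : Fin m), (i : ℕ) < t →
      ∀ (B : Finset V), B.card ≤ m → ∃ N : Finset Ω,
      δ / 4 * Fintype.card Ω ≤ (N.card : ℝ) ∧ ∀ x ∈ N, Esc (ctx T R y i x ∪ B) (y i x) := by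
    intro t
    induction t with
    | zero => exact fun _ => ⟨fun _ _ => v0, fun i hi => absurd hi (Nat.not_lt_zero _)⟩
    | succ t ih =>
      intro ht
      obtain ⟨y, hy⟩ := ih (by omega)
      let i0 : Fin m := ⟨t, by omega⟩
      have : Nonempty (Fin m → V) := ⟨fun _ => v0⟩
      obtain ⟨yt, hyt⟩ := exists_pool (V := V) (Z := Fin m → V) (Ω := Ω)
        (fun x Z u => Esc (ctx T R y i0 x ∪ univ.image Z) u) q hq δ (by
          intro x f
          obtain ⟨u, hu⟩ := sk (ctx T R y i0 x ∪ univ.biUnion (fun a => univ.image (f a))) (by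
            refine le_trans (card_union_le _ _) (le_trans (Nat.add_le_add
              (card_ctx_le T R hR y i0 x) ?_) hk)
            refine le_trans Finset.card_biUnion_le ?_
            refine le_trans (Finset.sum_le_card_nsmul _ _ m (fun a _ =>
              le_trans Finset.card_image_le (by simp))) ?_
            simp)
          refine ⟨u, fun a => anti _ _ _ ?_ hu⟩
          apply Finset.union_subset_union_right
          exact Finset.subset_biUnion_of_mem (fun a => univ.image (f a)) (mem_univ a))
        hn hδ hδ1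
      refine ⟨Function.update y i0 yt, ?_⟩
      intro i hi B hB
      by_cases hit : i = i0
      · subst hit
        obtain ⟨Z, hZ⟩ := exists_cover (m := m) v0 B hB
        refine ⟨univ.filter (fun x => Esc (ctx T R y i0 x ∪ univ.image Z) (yt x)), ?_, ?_⟩
        · have h1 := hyt Z
          have h2 : Real.log (Fintype.card (Fin m → V)) = m * Real.log (Fintype.card V) := by
            rw [Fintype.card_fun, Fintype.card_fin]
            push_cast
            rw [Real.log_pow]
          rw [h2] at h1
          linarith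
        · intro x hx
          rw [mem_filter] at hx
          rw [ctx_congr T R (Function.update y i0 yt) y i0 x (by
            intro j hj
            rw [Function.update_of_ne hj.ne]), Function.update_self]
          exact anti _ _ _ (Finset.union_subset_union_right hZ) hx.2
      · have hit' : (i : ℕ) < t := by
          have h1 : (i : ℕ) ≠ t := fun h => hit (Fin.ext h)
          omega
        obtain ⟨N, hN1, hN2⟩ := hy i hit' B hB
        refine ⟨N, hN1, fun x hx => ?_⟩
        rw [ctx_congr T R (Function.update y i0 yt) y i x (by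
          intro j hj
          rw [Function.update_of_ne]
          rintro rfl
          have h1 : t < (i : ℕ) := hj
          omega), Function.update_of_ne hit]
        exact hN2 x hx
  obtain ⟨y, hy⟩ := key m le_rfl
  exact ⟨y, fun i B hB => hy i i.2 B hB⟩

open scoped Classical in
/-- The vertices chosen after `i` from which the `i`-th vertex has to escape. -/
noncomputable def back {m : ℕ} (T : Fin m → Fin m → Prop) (y : Fin m → Ω → V) (i : Fin m)
    (ω : Fin m → Ω) : Finset V :=
  (univ.filter (fun j => i < j ∧ T j i)).image (fun j => y j (ω j))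

theorem card_back_le {m : ℕ} (T : Fin m → Fin m → Prop) (y : Fin m → Ω → V) (i : Fin m)
    (ω : Fin m → Ω) : (back T y i ω).card ≤ m := by
  classical
  unfold back
  refine le_trans Finset.card_image_le (le_trans (Finset.card_filter_le _ _) ?_)
  simp

theorem back_update {m : ℕ} (T : Fin m → Fin m → Prop) (y : Fin m → Ω → V) (i : Fin m)
    (ω : Fin m → Ω) (j : Fin m) (x : Ω) (h : ¬ (i < j ∧ T j i)) :
    back T y i (Function.update ω j x) = back T y i ω := by
  classical
  unfold back
  apply Finset.image_congr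
  intro l hl
  simp only [Finset.coe_filter, mem_univ, true_and, Set.mem_ofPred_eq] at hl
  simp only
  rw [Function.update_of_ne]
  rintro rfl
  exact h hl

open scoped Classical in
/-- The good indices for the `i`-th vertex. -/
noncomputable def Nset {m : ℕ} (Esc : Finset V → V → Prop) (T : Fin m → Fin m → Prop)
    (R : Ω → Finset Ω) (y : Fin m → Ω → V) (i : Fin m) (F : Finset (Fin m))
    (ω : Fin m → Ω) : Finset Ω :=
  univ.filter (fun x => Esc (ctx T R y i x ∪ back T y i ω) (y i x) ∧ ∀ j ∈ F, x ∈ R (ω j))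

theorem Nset_update {m : ℕ} (Esc : Finset V → V → Prop) (T : Fin m → Fin m → Prop)
    (R : Ω → Finset Ω) (y : Fin m → Ω → V) (i : Fin m) (F : Finset (Fin m))
    (ω : Fin m → Ω) (j : Fin m) (x : Ω) (h : ¬ (i < j ∧ T j i)) (hF : j ∉ F) :
    Nset Esc T R y i F (Function.update ω j x) = Nset Esc T R y i F ω := by
  classical
  unfold Nset
  rw [back_update T y i ω j x h]
  apply Finset.filter_congr
  intro z _
  apply and_congr_right
  intro _
  apply forall₂_congr
  intro l hl
  rw [Function.update_of_ne]
  rintro rfl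
  exact hF hl

theorem Nset_insert {m : ℕ} (Esc : Finset V → V → Prop) (T : Fin m → Fin m → Prop)
    (R : Ω → Finset Ω) (y : Fin m → Ω → V) (i : Fin m) (F : Finset (Fin m))
    (ω : Fin m → Ω) (j : Fin m) :
    Nset Esc T R y i (insert j F) ω = R (ω j) ∩ Nset Esc T R y i F ω := by
  classical
  ext x
  simp only [Nset, mem_filter, mem_univ, true_and, mem_insert, forall_eq_or_imp, mem_inter]
  tauto

open scoped Classical in
/-- Few tuples are bad for `i`. -/
theorem card_bad_le {m : ℕ} [Nonempty Ω] (Esc : Finset V → V → Prop) (T : Fin m → Fin m → Prop)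
    (R : Ω → Finset Ω) (y : Fin m → Ω → V) (i : Fin m) (θ ρ β lam : ℝ)
    (hT : ∀ a b, T a b → ¬ T b a)
    (hθ : 0 < θ) (hρ : 0 < ρ) (hρ1 : ρ ≤ 1) (hβ : 0 ≤ β) (hlam : lam = θ * (ρ / 2) ^ m)
    (hsamp : ∀ (N : Finset Ω) (ν : ℝ), 0 < ν → ν * Fintype.card Ω ≤ N.card →
      ((univ.filter (fun x => ((R x ∩ N).card : ℝ) < ρ / 2 * N.card)).card : ℝ)
        ≤ β / ν * Fintype.card Ω)
    (hpool : ∀ B : Finset V, B.card ≤ m → ∃ N : Finset Ω,
      θ * Fintype.card Ω ≤ (N.card : ℝ) ∧ ∀ x ∈ N, Esc (ctx T R y i x ∪ B) (y i x))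
    (F : Finset (Fin m)) (hF : ∀ j ∈ F, T i j) :
    ((univ.filter (fun ω : Fin m → Ω => ((Nset Esc T R y i F ω).card : ℝ)
      < θ * (ρ / 2) ^ F.card * Fintype.card Ω)).card : ℝ)
      ≤ F.card * (β / lam) * (Fintype.card (Fin m → Ω) : ℝ) := by
  have hM : (0 : ℝ) < Fintype.card Ω := by exact_mod_cast Fintype.card_pos
  have hlam0 : 0 < lam := by rw [hlam]; positivity
  have hβl : 0 ≤ β / lam := by positivity
  induction F using Finset.induction_on with
  | empty =>
    have h1 : (univ.filter (fun ω : Fin m → Ω => ((Nset Esc T R y i ∅ ω).card : ℝ)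
        < θ * (ρ / 2) ^ (∅ : Finset (Fin m)).card * Fintype.card Ω)) = ∅ := by
      rw [Finset.filter_eq_empty_iff]
      intro ω _
      rw [not_lt, Finset.card_empty, pow_zero, mul_one]
      obtain ⟨N, hN1, hN2⟩ := hpool (back T y i ω) (card_back_le T y i ω)
      refine le_trans hN1 ?_
      have h2 : N.card ≤ (Nset Esc T R y i ∅ ω).card := by
        apply Finset.card_le_card
        intro x hx
        simp only [Nset, mem_filter, mem_univ, true_and]
        exact ⟨hN2 x hx, by simp⟩
      exact_mod_cast h2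
    rw [h1]
    simp
  | insert j F hj ih =>
    have hTj : T i j := hF j (mem_insert_self _ _)
    have ih' := ih (fun l hl => hF l (mem_insert_of_mem hl))
    set ν : ℝ := θ * (ρ / 2) ^ F.card with hν
    have hν0 : 0 < ν := by positivity
    have hlν : lam ≤ ν := by
      rw [hlam, hν]
      apply mul_le_mul_of_nonneg_left _ hθ.le
      apply pow_le_pow_of_le_one (by positivity) (by linarith)
      refine le_trans (Finset.card_le_univ F) ?_
      simp
    have hsub : (univ.filter (fun ω : Fin m → Ω =>
        ((Nset Esc T R y i (insert j F) ω).card : ℝ)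
          < θ * (ρ / 2) ^ (insert j F).card * Fintype.card Ω)) ⊆
        (univ.filter (fun ω : Fin m → Ω => ((Nset Esc T R y i F ω).card : ℝ)
          < ν * Fintype.card Ω)) ∪
        (univ.filter (fun ω : Fin m → Ω => ν * Fintype.card Ω ≤ ((Nset Esc T R y i F ω).card : ℝ)
          ∧ ((R (ω j) ∩ Nset Esc T R y i F ω).card : ℝ)
            < ρ / 2 * (Nset Esc T R y i F ω).card)) := by
      intro ω hω
      rw [mem_filter, Nset_insert, Finset.card_insert_of_notMem hj] at hω
      rw [mem_union, mem_filter, mem_filter]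
      by_cases h1 : ((Nset Esc T R y i F ω).card : ℝ) < ν * Fintype.card Ω
      · exact Or.inl ⟨mem_univ _, h1⟩
      · right
        rw [not_lt] at h1
        refine ⟨mem_univ _, h1, lt_of_lt_of_le hω.2 ?_⟩
        rw [pow_succ]
        have h2 := mul_le_mul_of_nonneg_left h1 (by positivity : 0 ≤ ρ / 2)
        refine le_trans (le_of_eq ?_) h2
        rw [hν]
        ring
    have h2 : ((univ.filter (fun ω : Fin m → Ω => ν * Fintype.card Ω
          ≤ ((Nset Esc T R y i F ω).card : ℝ)
          ∧ ((R (ω j) ∩ Nset Esc T R y i F ω).card : ℝ)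
            < ρ / 2 * (Nset Esc T R y i F ω).card)).card : ℝ)
        ≤ (β / lam) * (Fintype.card (Fin m → Ω) : ℝ) := by
      apply card_le_of_update j
      intro ω
      have h3 : ∀ x, Nset Esc T R y i F (Function.update ω j x) = Nset Esc T R y i F ω := by
        intro x
        exact Nset_update Esc T R y i F ω j x (fun h => hT _ _ hTj h.2) hj
      simp only [h3, Function.update_self]
      by_cases h4 : ν * Fintype.card Ω ≤ ((Nset Esc T R y i F ω).card : ℝ)
      · simp only [h4, true_and]
        refine le_trans (hsamp _ ν hν0 h4) ?_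
        apply mul_le_mul_of_nonneg_right _ hM.le
        exact div_le_div_of_nonneg_left hβ hlam0 hlν
      · simp only [h4, false_and, Finset.filter_false, Finset.card_empty, Nat.cast_zero]
        positivity
    have h5 := Finset.card_le_card hsub
    have h6 := le_trans h5 (Finset.card_union_le _ _)
    have h7 : ((univ.filter (fun ω : Fin m → Ω =>
        ((Nset Esc T R y i (insert j F) ω).card : ℝ)
          < θ * (ρ / 2) ^ (insert j F).card * Fintype.card Ω)).card : ℝ) ≤
        ((univ.filter (fun ω : Fin m → Ω => ((Nset Esc T R y i F ω).card : ℝ)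
          < ν * Fintype.card Ω)).card : ℝ) +
        ((univ.filter (fun ω : Fin m → Ω => ν * Fintype.card Ω
          ≤ ((Nset Esc T R y i F ω).card : ℝ)
          ∧ ((R (ω j) ∩ Nset Esc T R y i F ω).card : ℝ)
            < ρ / 2 * (Nset Esc T R y i F ω).card)).card : ℝ) := by
      exact_mod_cast h6
    rw [Finset.card_insert_of_notMem hj] at h7 ⊢
    push_cast
    linarith

/-- Every asymmetric digraph `T` on `m` vertices is contained in every `S_k` system on `V`,
under numerical conditions. -/
theorem core {m k s q : ℕ} [Nonempty Ω] (Esc : Finset V → V → Prop)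
    (anti : ∀ A B u, A ⊆ B → Esc B u → Esc A u)
    (sk : ∀ A : Finset V, A.card ≤ k → ∃ u, Esc A u)
    (T : Fin m → Fin m → Prop) (hT : ∀ a b, T a b → ¬ T b a)
    (R : Ω → Finset Ω) (hR : ∀ x, (R x).card ≤ s)
    (hk : m * s + q * m ≤ k) (hq : 0 < q) (δ ρ β lam : ℝ) (hδ : 0 < δ) (hδ1 : δ ≤ 1)
    (hn : (Fintype.card V : ℝ) * δ ^ q ≤ 1)
    (hM : m * Real.log (Fintype.card V) ≤ δ / 4 * Fintype.card Ω)
    (hρ : 0 < ρ) (hρ1 : ρ ≤ 1) (hβ : 0 ≤ β) (hlam : lam = δ / 4 * (ρ / 2) ^ m)
    (hsamp : ∀ (N : Finset Ω) (ν : ℝ), 0 < ν → ν * Fintype.card Ω ≤ N.card →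
      ((univ.filter (fun x => ((R x ∩ N).card : ℝ) < ρ / 2 * N.card)).card : ℝ)
        ≤ β / ν * Fintype.card Ω)
    (hfin : m * (β / lam) ≤ 1 / 2 * (lam / 2) ^ m) :
    ∃ v : Fin m → V, ∀ i, ∃ A : Finset V, (∀ j, T j i → v j ∈ A) ∧ Esc A (v i) := by
  classical
  have hM0 : (0 : ℝ) < Fintype.card Ω := by exact_mod_cast Fintype.card_pos
  have hlam0 : 0 < lam := by rw [hlam]; positivity
  have hlam1 : lam / 2 ≤ 1 := by
    have h1 : (ρ / 2) ^ m ≤ 1 := pow_le_one₀ (by positivity) (by linarith)
    have h2 : lam ≤ 1 := by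
      rw [hlam]
      calc δ / 4 * (ρ / 2) ^ m ≤ δ / 4 * 1 := mul_le_mul_of_nonneg_left h1 (by positivity)
        _ ≤ 1 := by linarith
    linarith
  obtain ⟨y, hy⟩ := exists_pools Esc anti sk T R hR hk hq δ hδ hδ1 hn hM
  set Fwd : Fin m → Finset (Fin m) := fun i => univ.filter (fun j => i < j ∧ T i j) with hFwd
  set C : ℝ := (Fintype.card (Fin m → Ω) : ℝ) with hC
  have hC0 : 0 < C := by rw [hC]; exact_mod_cast Fintype.card_pos
  -- bad tuples
  have hbad : ∀ i, ((univ.filter (fun ω : Fin m → Ω => ((Nset Esc T R y i (Fwd i) ω).card : ℝ)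
      < lam * Fintype.card Ω)).card : ℝ) ≤ 1 / 2 * (lam / 2) ^ m * C := by
    intro i
    have h1 := card_bad_le Esc T R y i (δ / 4) ρ β lam hT (by positivity) hρ hρ1 hβ hlam hsamp
      (hy i) (Fwd i) (fun j hj => (mem_filter.1 hj).2.2)
    have hFm : (Fwd i).card ≤ m := by
      refine le_trans (Finset.card_le_univ _) ?_
      simp
    have h2 : (univ.filter (fun ω : Fin m → Ω => ((Nset Esc T R y i (Fwd i) ω).card : ℝ)
        < lam * Fintype.card Ω)).card ≤
        (univ.filter (fun ω : Fin m → Ω => ((Nset Esc T R y i (Fwd i) ω).card : ℝ)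
        < δ / 4 * (ρ / 2) ^ (Fwd i).card * Fintype.card Ω)).card := by
      apply Finset.card_le_card
      intro ω hω
      rw [mem_filter] at hω ⊢
      refine ⟨hω.1, lt_of_lt_of_le hω.2 ?_⟩
      apply mul_le_mul_of_nonneg_right _ hM0.le
      rw [hlam]
      apply mul_le_mul_of_nonneg_left _ (by positivity)
      exact pow_le_pow_of_le_one (by positivity) (by linarith) hFm
    have h3 : ((univ.filter (fun ω : Fin m → Ω => ((Nset Esc T R y i (Fwd i) ω).card : ℝ)
        < lam * Fintype.card Ω)).card : ℝ) ≤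
        ((univ.filter (fun ω : Fin m → Ω => ((Nset Esc T R y i (Fwd i) ω).card : ℝ)
        < δ / 4 * (ρ / 2) ^ (Fwd i).card * Fintype.card Ω)).card : ℝ) := by exact_mod_cast h2
    refine le_trans h3 (le_trans h1 ?_)
    apply mul_le_mul_of_nonneg_right _ hC0.le
    refine le_trans ?_ hfin
    apply mul_le_mul_of_nonneg_right _ (by positivity)
    exact_mod_cast hFm
  -- good tuples
  have key : ∀ t : ℕ, t ≤ m → (lam / 2) ^ t * C ≤
      ((univ.filter (fun ω : Fin m → Ω => ∀ i : Fin m, m - t ≤ (i : ℕ) →
        ω i ∈ Nset Esc T R y i (Fwd i) ω)).card : ℝ) := by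
    intro t
    induction t with
    | zero =>
      intro _
      have h1 : (univ.filter (fun ω : Fin m → Ω => ∀ i : Fin m, m - 0 ≤ (i : ℕ) →
        ω i ∈ Nset Esc T R y i (Fwd i) ω)) = univ := by
        rw [Finset.filter_eq_self]
        intro ω _ i hi
        have := i.2
        omega
      rw [h1, Finset.card_univ, pow_zero, one_mul]
    | succ t ih =>
      intro ht
      have ih' := ih (by omega)
      let i0 : Fin m := ⟨m - (t + 1), by omega⟩
      set P : (Fin m → Ω) → Prop := fun ω => ∀ i : Fin m, m - (t + 1) ≤ (i : ℕ) →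
        ω i ∈ Nset Esc T R y i (Fwd i) ω with hP
      set P' : (Fin m → Ω) → Prop := fun ω => ∀ i : Fin m, m - t ≤ (i : ℕ) →
        ω i ∈ Nset Esc T R y i (Fwd i) ω with hP'
      have h1 := sum_card_update i0 P
      set G' := univ.filter P' with hG'
      set Bad := univ.filter (fun ω : Fin m → Ω => ((Nset Esc T R y i0 (Fwd i0) ω).card : ℝ)
        < lam * Fintype.card Ω) with hBad
      have h2 : ∀ ω ∈ G' \ Bad, lam * Fintype.card Ω ≤
          ((univ.filter (fun x => P (Function.update ω i0 x))).card : ℝ) := by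
        intro ω hω
        rw [mem_sdiff, hG', hBad, mem_filter, mem_filter] at hω
        obtain ⟨⟨-, hω1⟩, hω2⟩ := hω
        have hω3 : lam * Fintype.card Ω ≤ ((Nset Esc T R y i0 (Fwd i0) ω).card : ℝ) := by
          by_contra hcon
          rw [not_le] at hcon
          exact hω2 ⟨mem_univ _, hcon⟩
        refine le_trans hω3 ?_
        have h3 : (Nset Esc T R y i0 (Fwd i0) ω).card ≤
            (univ.filter (fun x => P (Function.update ω i0 x))).card := by
          apply Finset.card_le_card
          intro x hx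
          rw [mem_filter]
          refine ⟨mem_univ _, ?_⟩
          intro i hi
          have h4 : ∀ i : Fin m, i0 ≤ i → Nset Esc T R y i (Fwd i) (Function.update ω i0 x)
              = Nset Esc T R y i (Fwd i) ω := by
            intro i hi
            apply Nset_update
            · intro h
              exact absurd h.1 (not_lt.2 hi)
            · rw [hFwd]
              simp only [mem_filter, mem_univ, true_and, not_and]
              intro h
              exact absurd h (not_lt.2 hi)
          have hi' : i0 ≤ i := hi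
          rw [h4 i hi']
          by_cases hi0 : i = i0
          · subst hi0
            rw [Function.update_self]
            exact hx
          · rw [Function.update_of_ne hi0]
            apply hω1 i
            have h5 : (i : ℕ) ≠ m - (t + 1) := fun h => hi0 (Fin.ext h)
            omega
        exact_mod_cast h3
      have h3 : ((G' \ Bad).card : ℝ) * (lam * Fintype.card Ω) ≤
          Fintype.card Ω * ((univ.filter P).card : ℝ) := by
        have h4 : ((G' \ Bad).card : ℝ) * (lam * Fintype.card Ω) ≤
            ∑ ω ∈ G' \ Bad, ((univ.filter (fun x => P (Function.update ω i0 x))).card : ℝ) := by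
          rw [← nsmul_eq_mul]
          exact Finset.card_nsmul_le_sum _ _ _ h2
        have h5 : ∑ ω ∈ G' \ Bad, ((univ.filter (fun x => P (Function.update ω i0 x))).card : ℝ)
            ≤ ∑ ω, ((univ.filter (fun x => P (Function.update ω i0 x))).card : ℝ) := by
          apply Finset.sum_le_sum_of_subset_of_nonneg (subset_univ _)
          intro _ _ _
          positivity
        have h6 : ∑ ω, ((univ.filter (fun x => P (Function.update ω i0 x))).card : ℝ)
            = Fintype.card Ω * ((univ.filter P).card : ℝ) := by exact_mod_cast h1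
        linarith
      have h4 : ((G' \ Bad).card : ℝ) * lam ≤ ((univ.filter P).card : ℝ) := by
        have h5 : (Fintype.card Ω : ℝ) * (((G' \ Bad).card : ℝ) * lam)
            ≤ Fintype.card Ω * ((univ.filter P).card : ℝ) := by
          refine le_trans (le_of_eq ?_) h3
          ring
        exact le_of_mul_le_mul_left h5 hM0
      have h5 : (G'.card : ℝ) - Bad.card ≤ ((G' \ Bad).card : ℝ) := by
        have := Finset.le_card_sdiff Bad G'
        have h6 : G'.card ≤ (G' \ Bad).card + Bad.card := by omega
        have h7 : (G'.card : ℝ) ≤ ((G' \ Bad).card : ℝ) + Bad.card := by exact_mod_cast h6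
        linarith
      have h6 := hbad i0
      rw [← hBad] at h6
      have h7 : (lam / 2) ^ m ≤ (lam / 2) ^ t :=
        pow_le_pow_of_le_one (by positivity) hlam1 (by omega)
      have h8 : 1 / 2 * (lam / 2) ^ t * C ≤ ((G' \ Bad).card : ℝ) := by
        have h9 : 1 / 2 * (lam / 2) ^ m * C ≤ 1 / 2 * (lam / 2) ^ t * C := by
          apply mul_le_mul_of_nonneg_right _ hC0.le
          linarith
        linarith
      calc (lam / 2) ^ (t + 1) * C = (1 / 2 * (lam / 2) ^ t * C) * lam := by
            rw [pow_succ]; ring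
        _ ≤ ((G' \ Bad).card : ℝ) * lam := mul_le_mul_of_nonneg_right h8 hlam0.le
        _ ≤ _ := h4
  have hG := key m le_rfl
  have hGpos : (0 : ℝ) < (lam / 2) ^ m * C := by positivity
  have hne : (univ.filter (fun ω : Fin m → Ω => ∀ i : Fin m, m - m ≤ (i : ℕ) →
        ω i ∈ Nset Esc T R y i (Fwd i) ω)).Nonempty := by
    rw [← Finset.card_pos]
    have := lt_of_lt_of_le hGpos hG
    exact_mod_cast this
  obtain ⟨ω, hω⟩ := hne
  rw [mem_filter] at hω
  have hω' : ∀ i : Fin m, ω i ∈ Nset Esc T R y i (Fwd i) ω := fun i => hω.2 i (by omega)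
  refine ⟨fun i => y i (ω i), fun i => ?_⟩
  have h1 := hω' i
  simp only [Nset, mem_filter, mem_univ, true_and] at h1
  refine ⟨ctx T R y i (ω i) ∪ back T y i ω, ?_, h1.1⟩
  intro j hj
  rw [mem_union]
  rcases lt_trichotomy j i with h | h | h
  · left
    have h2 := hω' j
    simp only [Nset, mem_filter, mem_univ, true_and] at h2
    have h3 : ω j ∈ R (ω i) := h2.2 i (by
      rw [hFwd]
      simp only [mem_filter, mem_univ, true_and]
      exact ⟨h, hj⟩)
    unfold ctx
    rw [mem_biUnion]
    exact ⟨j, by simp only [mem_filter, mem_univ, true_and]; exact ⟨h, hj⟩,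
      mem_image_of_mem _ h3⟩
  · subst h
    exact absurd hj (hT _ _ hj)
  · right
    unfold back
    rw [mem_image]
    exact ⟨j, by simp only [mem_filter, mem_univ, true_and]; exact ⟨h, hj⟩, rfl⟩

end

end Pool.Agent.Helper19.Dom
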