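import Mathlib

set_option autoImplicit false

/-!
A sampler on `ZMod Q × ZMod Q`: a family of `Q * g`-subsets, indexed by the ground set itself,
nearly all of which meet every large set in roughly the right proportion.
-/

namespace Pool.Agent.Helper19.Dom

open Finset

/-- The sets of the sampler. -/
def sset {Q : ℕ} [NeZero Q] (I : Finset (ZMod Q)) (ω : ZMod Q × ZMod Q) :
    Finset (ZMod Q × ZMod Q) :=
  univ.filter (fun z => z.2 - ω.1 * z.1 - ω.2 ∈ I)

theorem mem_sset {Q : ℕ} [NeZero Q] (I : Finset (ZMod Q)) (ω z : ZMod Q × ZMod Q) :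
    z ∈ sset I ω ↔ z.2 - ω.1 * z.1 - ω.2 ∈ I := by
  simp [sset]

theorem card_sset_le {Q : ℕ} [NeZero Q] (I : Finset (ZMod Q)) (ω : ZMod Q × ZMod Q) :
    (sset I ω).card ≤ Q * I.card := by
  have h1 : (sset I ω).card ≤ ((univ : Finset (ZMod Q)) ×ˢ I).card := by
    apply Finset.card_le_card_of_injOn (fun z => (z.1, z.2 - ω.1 * z.1 - ω.2))
    · intro z hz
      rw [Finset.mem_coe, mem_sset] at hz
      simp [hz]
    · intro z _ z' _ h
      simp only [Prod.mk.injEq] at h
      obtain ⟨h1, h2⟩ := h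
      rw [h1] at h2
      exact Prod.ext h1 (by simpa using h2)
  rwa [Finset.card_product, Finset.card_univ, ZMod.card] at h1

theorem degree_sset {Q : ℕ} [NeZero Q] (I : Finset (ZMod Q)) (z : ZMod Q × ZMod Q) :
    (univ.filter (fun ω => z ∈ sset I ω)).card = Q * I.card := by
  have h1 : (univ.filter (fun ω => z ∈ sset I ω)).card = ((univ : Finset (ZMod Q)) ×ˢ I).card := by
    apply Finset.card_nbij' (fun ω => (ω.1, z.2 - ω.1 * z.1 - ω.2))
      (fun ω => (ω.1, z.2 - ω.1 * z.1 - ω.2))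
    · intro ω hω
      simp only [Finset.coe_filter, mem_univ, true_and, Set.mem_ofPred_eq, mem_sset] at hω
      simp [hω]
    · intro ω hω
      simp only [Finset.coe_product, Set.mem_prod, Finset.mem_coe] at hω
      simp only [Finset.coe_filter, mem_univ, true_and, Set.mem_ofPred_eq, mem_sset]
      simpa using hω.2
    · intro ω _
      simp
    · intro ω _
      simp
  rwa [Finset.card_product, Finset.card_univ, ZMod.card] at h1

theorem pair_degree_sset {Q : ℕ} [Fact Q.Prime] (I : Finset (ZMod Q)) (z z' : ZMod Q × ZMod Q)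
    (h : z.1 ≠ z'.1) :
    (univ.filter (fun ω => z ∈ sset I ω ∧ z' ∈ sset I ω)).card ≤ I.card * I.card := by
  have h1 : (univ.filter (fun ω => z ∈ sset I ω ∧ z' ∈ sset I ω)).card ≤ (I ×ˢ I).card := by
    apply Finset.card_le_card_of_injOn
      (fun ω => (z.2 - ω.1 * z.1 - ω.2, z'.2 - ω.1 * z'.1 - ω.2))
    · intro ω hω
      simp only [Finset.coe_filter, mem_univ, true_and, Set.mem_ofPred_eq, mem_sset] at hω
      simp [hω]
    · intro ω _ ω' _ hh
      simp only [Prod.mk.injEq] at hh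
      obtain ⟨h1, h2⟩ := hh
      have h3 : (ω.1 - ω'.1) * (z.1 - z'.1) = 0 := by linear_combination h2 - h1
      have h4 : ω.1 = ω'.1 := by
        rcases mul_eq_zero.1 h3 with h5 | h5
        · exact sub_eq_zero.1 h5
        · exact absurd (sub_eq_zero.1 h5) h
      rw [h4] at h1
      exact Prod.ext h4 (by simpa using h1)
  rwa [Finset.card_product] at h1

theorem sum_inter_sset {Q : ℕ} [NeZero Q] (I : Finset (ZMod Q))
    (N : Finset (ZMod Q × ZMod Q)) :
    ∑ ω, ((sset I ω ∩ N).card : ℝ) = N.card * (Q * I.card) := by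
  have h1 : ∀ ω, ((sset I ω ∩ N).card : ℝ) = ∑ z ∈ N, if z ∈ sset I ω then (1 : ℝ) else 0 := by
    intro ω
    rw [Finset.inter_comm, ← Finset.filter_mem_eq_inter, Finset.card_filter]
    push_cast
    rfl
  rw [Finset.sum_congr rfl (fun ω _ => h1 ω), Finset.sum_comm]
  rw [Finset.sum_congr rfl (g := fun _ => (Q : ℝ) * I.card)]
  · rw [Finset.sum_const, nsmul_eq_mul]
  · intro z _
    have := degree_sset I z
    rw [Finset.card_filter] at this
    exact_mod_cast this

theorem sum_sq_inter_sset {Q : ℕ} [Fact Q.Prime] (I : Finset (ZMod Q))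
    (N : Finset (ZMod Q × ZMod Q)) :
    ∑ ω, ((sset I ω ∩ N).card : ℝ) ^ 2
      ≤ (N.card : ℝ) ^ 2 * (I.card : ℝ) ^ 2 + N.card * ((Q : ℝ) * (Q * I.card)) := by
  have h1 : ∀ ω, ((sset I ω ∩ N).card : ℝ) = ∑ z ∈ N, if z ∈ sset I ω then (1 : ℝ) else 0 := by
    intro ω
    rw [Finset.inter_comm, ← Finset.filter_mem_eq_inter, Finset.card_filter]
    push_cast
    rfl
  have h2 : ∀ ω, ((sset I ω ∩ N).card : ℝ) ^ 2
      = ∑ z ∈ N, ∑ z' ∈ N, if z ∈ sset I ω ∧ z' ∈ sset I ω then (1 : ℝ) else 0 := by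
    intro ω
    rw [sq, h1 ω, Finset.sum_mul_sum]
    apply Finset.sum_congr rfl
    intro z _
    apply Finset.sum_congr rfl
    intro z' _
    by_cases ha : z ∈ sset I ω <;> by_cases hb : z' ∈ sset I ω <;> simp [ha, hb]
  rw [Finset.sum_congr rfl (fun ω _ => h2 ω), Finset.sum_comm]
  have h3 : ∀ z ∈ N, ∑ ω, ∑ z' ∈ N, (if z ∈ sset I ω ∧ z' ∈ sset I ω then (1 : ℝ) else 0)
      ≤ N.card * (I.card : ℝ) ^ 2 + (Q : ℝ) * (Q * I.card) := by
    intro z _
    rw [Finset.sum_comm]
    have h4 : ∀ z' ∈ N, ∑ ω, (if z ∈ sset I ω ∧ z' ∈ sset I ω then (1 : ℝ) else 0)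
        ≤ (I.card : ℝ) ^ 2 + if z.1 = z'.1 then (Q : ℝ) * I.card else 0 := by
      intro z' _
      have h5 : ∑ ω, (if z ∈ sset I ω ∧ z' ∈ sset I ω then (1 : ℝ) else 0)
          = ((univ.filter (fun ω => z ∈ sset I ω ∧ z' ∈ sset I ω)).card : ℝ) := by
        rw [Finset.card_filter]
        push_cast
        rfl
      rw [h5]
      by_cases h6 : z.1 = z'.1
      · rw [if_pos h6]
        have h7 : (univ.filter (fun ω => z ∈ sset I ω ∧ z' ∈ sset I ω)).card ≤ Q * I.card := by
          rw [← degree_sset I z]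
          apply Finset.card_le_card
          intro ω hω
          simp only [mem_filter, mem_univ, true_and] at hω ⊢
          exact hω.1
        have h8 : ((univ.filter (fun ω => z ∈ sset I ω ∧ z' ∈ sset I ω)).card : ℝ)
            ≤ (Q : ℝ) * I.card := by exact_mod_cast h7
        have h9 : (0 : ℝ) ≤ (I.card : ℝ) ^ 2 := by positivity
        linarith
      · rw [if_neg h6]
        have h7 := pair_degree_sset I z z' h6
        have h8 : ((univ.filter (fun ω => z ∈ sset I ω ∧ z' ∈ sset I ω)).card : ℝ)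
            ≤ (I.card : ℝ) * I.card := by exact_mod_cast h7
        nlinarith
    refine le_trans (Finset.sum_le_sum h4) ?_
    rw [Finset.sum_add_distrib, Finset.sum_const, nsmul_eq_mul]
    have h10 : ∑ z' ∈ N, (if z.1 = z'.1 then (Q : ℝ) * I.card else 0) ≤ (Q : ℝ) * (Q * I.card) := by
      rw [← Finset.sum_filter, Finset.sum_const, nsmul_eq_mul]
      apply mul_le_mul_of_nonneg_right _ (by positivity)
      have h11 : (N.filter (fun z' => z.1 = z'.1)).card ≤ (univ : Finset (ZMod Q)).card := by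
        apply Finset.card_le_card_of_injOn (fun z' => z'.2)
        · intro _ _; simp
        · intro a ha b hb hab
          simp only [Finset.coe_filter, Set.mem_ofPred_eq] at ha hb
          exact Prod.ext (ha.2.symm.trans hb.2) hab
      rw [Finset.card_univ, ZMod.card] at h11
      exact_mod_cast h11
    linarith
  refine le_trans (Finset.sum_le_sum h3) ?_
  rw [Finset.sum_const, nsmul_eq_mul]
  apply le_of_eq
  ring

/-- The sampling property. -/
theorem sample_sset {Q : ℕ} [Fact Q.Prime] (I : Finset (ZMod Q)) (hI : 0 < I.card)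
    (N : Finset (ZMod Q × ZMod Q)) (ν : ℝ) (hν : 0 < ν)
    (hN : ν * (Fintype.card (ZMod Q × ZMod Q) : ℝ) ≤ N.card) :
    ((univ.filter (fun ω => ((sset I ω ∩ N).card : ℝ)
      < ((I.card : ℝ) / Q) / 2 * N.card)).card : ℝ)
      ≤ (4 / (I.card : ℝ)) / ν * (Fintype.card (ZMod Q × ZMod Q) : ℝ) := by
  have hQ : (0 : ℝ) < Q := by exact_mod_cast (Fact.out : Q.Prime).pos
  have hM : (Fintype.card (ZMod Q × ZMod Q) : ℝ) = (Q : ℝ) ^ 2 := by
    rw [Fintype.card_prod, ZMod.card]
    push_cast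
    ring
  rw [hM] at hN ⊢
  set g : ℝ := (I.card : ℝ) with hg
  have hg0 : 0 < g := by rw [hg]; exact_mod_cast hI
  set x : ℝ := (N.card : ℝ) with hx
  have hx0 : 0 < x := lt_of_lt_of_le (by positivity) hN
  set μ : ℝ := g / Q * x with hμ
  have hμ0 : 0 < μ := by positivity
  set B := univ.filter (fun ω => ((sset I ω ∩ N).card : ℝ) < g / Q / 2 * x) with hB
  -- variance
  have hvar : ∑ ω, (((sset I ω ∩ N).card : ℝ) - μ) ^ 2 ≤ x * (Q ^ 2 * g) := by
    have e1 : ∑ ω, (((sset I ω ∩ N).card : ℝ) - μ) ^ 2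
        = ∑ ω, ((sset I ω ∩ N).card : ℝ) ^ 2 - 2 * μ * ∑ ω, ((sset I ω ∩ N).card : ℝ)
          + (Q : ℝ) ^ 2 * μ ^ 2 := by
      rw [Finset.mul_sum, ← Finset.sum_sub_distrib]
      have e2 : (Q : ℝ) ^ 2 * μ ^ 2 = ∑ _ω : ZMod Q × ZMod Q, μ ^ 2 := by
        rw [Finset.sum_const, Finset.card_univ, nsmul_eq_mul, hM]
      rw [e2, ← Finset.sum_add_distrib]
      apply Finset.sum_congr rfl
      intro ω _
      ring
    rw [e1, sum_inter_sset]
    have e3 := sum_sq_inter_sset I N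
    rw [← hg, ← hx] at e3 ⊢
    have e4 : 2 * μ * (x * (Q * g)) = 2 * (x ^ 2 * g ^ 2) := by
      rw [hμ]; field_simp
    have e5 : (Q : ℝ) ^ 2 * μ ^ 2 = x ^ 2 * g ^ 2 := by
      rw [hμ]; field_simp
    rw [e4, e5]
    nlinarith
  have hB2 : (B.card : ℝ) * (μ ^ 2 / 4) ≤ x * (Q ^ 2 * g) := by
    refine le_trans ?_ hvar
    have e1 : (B.card : ℝ) * (μ ^ 2 / 4) ≤ ∑ ω ∈ B, (((sset I ω ∩ N).card : ℝ) - μ) ^ 2 := by
      rw [← nsmul_eq_mul]
      apply Finset.card_nsmul_le_sum
      intro ω hω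
      rw [hB, mem_filter] at hω
      have h1 : ((sset I ω ∩ N).card : ℝ) < μ / 2 := by
        have : g / Q / 2 * x = μ / 2 := by rw [hμ]; ring
        rw [← this]
        exact hω.2
      nlinarith
    refine le_trans e1 (Finset.sum_le_sum_of_subset_of_nonneg (subset_univ _) ?_)
    intro ω _ _
    positivity
  have h1 : (B.card : ℝ) * (μ ^ 2 / 4) ≤ (4 / g / ν * Q ^ 2) * (μ ^ 2 / 4) := by
    refine le_trans hB2 ?_
    have h2 : (4 / g / ν * (Q : ℝ) ^ 2) * (μ ^ 2 / 4) = x * g * (x / ν) := by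
      rw [hμ]; field_simp
    rw [h2]
    have h3 : (Q : ℝ) ^ 2 ≤ x / ν := by
      rw [le_div_iff₀ hν]
      linarith
    calc x * ((Q : ℝ) ^ 2 * g) = x * g * Q ^ 2 := by ring
      _ ≤ x * g * (x / ν) := mul_le_mul_of_nonneg_left h3 (by positivity)
  exact le_of_mul_le_mul_right h1 (by positivity)

end Pool.Agent.Helper19.Dom
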