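import Mathlib
import Pool.Agent.Helper39.PDom
import Pool.Agent.Helper19.Dom.Sampler
import Pool.Agent.Helper19.Dom.Core

set_option autoImplicit false

/-!
If some tournament on `r` vertices has the Schütte property `S_p` then the upper directed
`p`-domination number of `H(n,r)` is `O(log n / log log n)`.
-/

namespace Pool.Agent.Helper19.Dom

open Finset Pool.Agent.Helper39

/-- `T` is a tournament. -/
def IsTour {V : Type*} (T : V → V → Prop) : Prop :=
  (∀ u, ¬ T u u) ∧ ∀ u v, u ≠ v → (T u v ↔ ¬ T v u)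

/-- The Schütte property: every `p` vertices have a common out-neighbour. -/
def Schutte {V : Type*} (p : ℕ) (T : V → V → Prop) : Prop :=
  ∀ J : Finset V, J.card = p → ∃ i, i ∉ J ∧ ∀ j ∈ J, T j i

theorem IsTour.asymm {V : Type*} {T : V → V → Prop} (hT : IsTour T) (a b : V) (h : T a b) :
    ¬ T b a := by
  by_cases hab : a = b
  · subst hab
    exact absurd h (hT.1 a)
  · exact (hT.2 a b hab).1 h

/-- The parameters of the embedding theorem. -/
theorem embed {m c : ℕ} (hm : 1 ≤ m) (hc : 2 ≤ c) {V : Type*} [Fintype V] [DecidableEq V]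
    (Esc : Finset V → V → Prop) (anti : ∀ A B u, A ⊆ B → Esc B u → Esc A u)
    (sk : ∀ A : Finset V, A.card ≤ 4 * m * (8 * m * c ^ 2) ^ (2 * (2 * (m + 1) ^ 2) + 1) →
      ∃ u, Esc A u)
    (T : Fin m → Fin m → Prop) (hT : ∀ a b, T a b → ¬ T b a)
    (hn : Real.log (Fintype.card V) ≤
      2 * ((8 * m * c ^ 2 : ℕ) : ℝ) ^ (2 * (2 * (m + 1) ^ 2) + 1) * Real.log c) :
    ∃ v : Fin m → V, ∀ i, ∃ A : Finset V, (∀ j, T j i → v j ∈ A) ∧ Esc A (v i) := by
  set b : ℕ := 8 * m * c ^ 2 with hb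
  set L : ℕ := 2 * (m + 1) ^ 2 with hL
  have hc0 : (0 : ℝ) < c := by exact_mod_cast (by omega : 0 < c)
  have hc2 : (2 : ℝ) ≤ c := by exact_mod_cast hc
  have hm1 : (1 : ℝ) ≤ m := by exact_mod_cast hm
  have hb2 : 2 ≤ b := by
    rw [hb]
    have : 4 ≤ c ^ 2 := by nlinarith
    nlinarith
  have hbR : (b : ℝ) = 8 * m * (c : ℝ) ^ 2 := by rw [hb]; push_cast; ring
  have hb1 : (1 : ℝ) ≤ b := by exact_mod_cast (by omega : 1 ≤ b)
  have hb0 : (0 : ℝ) < b := by linarith
  obtain ⟨Q, hQp, hQ1, hQ2⟩ := Nat.exists_prime_lt_and_le_two_mul (b ^ (L + 1)) (by positivity)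
  have : Fact Q.Prime := ⟨hQp⟩
  have hQb : b ^ L ≤ Q := by
    have : b ^ L ≤ b ^ (L + 1) := Nat.pow_le_pow_right (by omega) (by omega)
    omega
  obtain ⟨I, -, hI⟩ := Finset.exists_subset_card_eq (s := (univ : Finset (ZMod Q))) (n := b ^ L)
    (by rw [Finset.card_univ, ZMod.card]; exact hQb)
  have hQ0 : (0 : ℝ) < Q := by exact_mod_cast hQp.pos
  have hV : Nonempty V := by
    obtain ⟨u, -⟩ := sk ∅ (by simp)
    exact ⟨u⟩
  have hn1 : (1 : ℝ) ≤ Fintype.card V := by exact_mod_cast Fintype.card_pos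
  have hlogc : 0 < Real.log c := Real.log_pos (by linarith)
  have hlogc' : Real.log c ≤ c := by
    have := Real.log_le_sub_one_of_pos hc0
    linarith
  have hQ1R : (b : ℝ) ^ (L + 1) ≤ Q := by exact_mod_cast hQ1.le
  have hQ2R : (Q : ℝ) ≤ 2 * (b : ℝ) ^ (L + 1) := by exact_mod_cast hQ2
  have hcardΩ : (Fintype.card (ZMod Q × ZMod Q) : ℝ) = (Q : ℝ) ^ 2 := by
    rw [Fintype.card_prod, ZMod.card]
    push_cast
    ring
  refine core (Ω := ZMod Q × ZMod Q) (k := 4 * m * b ^ (2 * L + 1)) (s := Q * b ^ L)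
    (q := 2 * b ^ (2 * L + 1)) Esc anti sk T hT (sset I) ?_ ?_ ?_ (1 / c)
    ((b : ℝ) ^ L / Q) (4 / (b : ℝ) ^ L) (1 / c / 4 * ((b : ℝ) ^ L / Q / 2) ^ m)
    (by positivity) ?_ ?_ ?_ (by positivity) ?_ (by positivity) rfl ?_ ?_
  · intro x
    rw [← hI]
    exact card_sset_le I x
  · calc m * (Q * b ^ L) + 2 * b ^ (2 * L + 1) * m
        ≤ m * ((2 * b ^ (L + 1)) * b ^ L) + 2 * b ^ (2 * L + 1) * m := by gcongr
      _ = 4 * m * b ^ (2 * L + 1) := by ring
  · positivity
  · rw [div_le_one hc0]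
    linarith
  · rw [one_div, inv_pow, ← div_eq_mul_inv, div_le_one (by positivity)]
    rw [← Real.log_le_log_iff (by linarith) (by positivity), Real.log_pow]
    refine le_trans hn (le_of_eq ?_)
    push_cast
    ring
  · rw [hcardΩ]
    have h1 : (m : ℝ) * Real.log (Fintype.card V) ≤ m * (2 * (b : ℝ) ^ (2 * L + 1) * c) := by
      apply mul_le_mul_of_nonneg_left _ (by positivity)
      refine le_trans hn ?_
      apply mul_le_mul_of_nonneg_left hlogc' (by positivity)
    refine le_trans h1 ?_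
    have h2 : 1 / (c : ℝ) / 4 * ((b : ℝ) ^ (L + 1)) ^ 2 ≤ 1 / (c : ℝ) / 4 * (Q : ℝ) ^ 2 := by
      apply mul_le_mul_of_nonneg_left _ (by positivity)
      exact pow_le_pow_left₀ (by positivity) hQ1R 2
    refine le_trans (le_of_eq ?_) h2
    have h3 : ((b : ℝ) ^ (L + 1)) ^ 2 = b ^ (2 * L + 1) * b := by
      rw [← pow_mul, ← pow_succ]
      congr 1
      ring
    rw [h3]
    nth_rewrite 3 [hbR]
    field_simp
    ring
  · rw [div_le_one hQ0]
    exact_mod_cast hQb
  · intro N ν hν hN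
    have h1 := sample_sset I (by rw [hI]; positivity) N ν hν hN
    rw [hI] at h1
    push_cast at h1
    exact h1
  · -- the final numerical condition
    set lam : ℝ := 1 / (c : ℝ) / 4 * ((b : ℝ) ^ L / Q / 2) ^ m with hlam
    have hlam0 : 0 < lam := by positivity
    have h1 : (1 / (b : ℝ)) ^ 2 ≤ (b : ℝ) ^ L / Q / 2 := by
      rw [div_div, le_div_iff₀ (by positivity)]
      have h2 : (1 / (b : ℝ)) ^ 2 * (Q * 2) ≤ (1 / (b : ℝ)) ^ 2 * ((2 * (b : ℝ) ^ (L + 1)) * 2) := by
        apply mul_le_mul_of_nonneg_left _ (by positivity)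
        linarith
      refine le_trans h2 ?_
      have h3 : (1 / (b : ℝ)) ^ 2 * ((2 * (b : ℝ) ^ (L + 1)) * 2) = 4 / b * (b : ℝ) ^ L := by
        rw [pow_succ (b : ℝ) L]
        field_simp
        ring
      rw [h3]
      have h4 : 4 / (b : ℝ) ≤ 1 := by
        rw [div_le_one hb0, hbR]
        nlinarith
      have h5 : (0 : ℝ) < (b : ℝ) ^ L := by positivity
      nlinarith
    have h2 : (1 / (b : ℝ)) ≤ 1 / (c : ℝ) / 4 := by
      rw [div_div]
      apply div_le_div_of_nonneg_left (by norm_num) (by positivity)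
      rw [hbR]
      nlinarith
    have h3 : (1 / (b : ℝ)) ^ (2 * m + 1) ≤ lam := by
      rw [hlam, pow_succ, pow_mul, mul_comm]
      apply mul_le_mul h2 _ (by positivity) (by positivity)
      exact pow_le_pow_left₀ (by positivity) h1 m
    have h4 : (1 / (b : ℝ)) ^ (2 * m + 2) ≤ lam / 2 := by
      have h5 : (1 / (b : ℝ)) ^ (2 * m + 2) = (1 / (b : ℝ)) ^ (2 * m + 1) * (1 / b) := by
        rw [← pow_succ]
      rw [h5]
      have h6 : (1 / (b : ℝ)) ≤ 1 / 2 := by
        apply div_le_div_of_nonneg_left (by norm_num) (by norm_num)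
        exact_mod_cast hb2
      calc (1 / (b : ℝ)) ^ (2 * m + 1) * (1 / b) ≤ lam * (1 / 2) :=
            mul_le_mul h3 h6 (by positivity) hlam0.le
        _ = lam / 2 := by ring
    -- main inequality
    have h5 : (m : ℝ) * (4 / (b : ℝ) ^ L / lam) ≤ 1 / 2 * (lam / 2) ^ m ↔
        (m : ℝ) * 8 * (1 / (b : ℝ)) ^ L ≤ lam * (lam / 2) ^ m := by
      have e1 : (m : ℝ) * (4 / (b : ℝ) ^ L / lam) = (1 / 2) * ((m * 8 * (1 / (b : ℝ)) ^ L) / lam) := by
        rw [one_div_pow]
        field_simp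
        ring
      rw [e1]
      constructor
      · intro h
        have h6 : (m * 8 * (1 / (b : ℝ)) ^ L) / lam ≤ (lam / 2) ^ m := by linarith
        rw [div_le_iff₀ hlam0] at h6
        linarith
      · intro h
        have h6 : (m * 8 * (1 / (b : ℝ)) ^ L) / lam ≤ (lam / 2) ^ m := by
          rw [div_le_iff₀ hlam0]
          linarith
        linarith
    rw [h5]
    have h6 : (m : ℝ) * 8 ≤ b := by
      rw [hbR]
      have h8 : (1 : ℝ) ≤ (c : ℝ) ^ 2 := by nlinarith
      have h9 := mul_le_mul_of_nonneg_left h8 (by positivity : (0 : ℝ) ≤ 8 * m)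
      linarith
    have h7 : L = 1 + ((2 * m + 1) + (2 * m + 2) * m) := by
      rw [hL]; ring
    calc (m : ℝ) * 8 * (1 / (b : ℝ)) ^ L ≤ b * (1 / (b : ℝ)) ^ L := by
          apply mul_le_mul_of_nonneg_right h6 (by positivity)
      _ = (1 / (b : ℝ)) ^ (2 * m + 1) * ((1 / (b : ℝ)) ^ (2 * m + 2)) ^ m := by
          rw [← pow_mul, ← pow_add]
          nth_rewrite 1 [h7]
          rw [pow_add, pow_one, ← mul_assoc, mul_one_div_cancel hb0.ne', one_mul]
      _ ≤ lam * (lam / 2) ^ m := by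
          apply mul_le_mul h3 _ (by positivity) hlam0.le
          exact pow_le_pow_left₀ (by positivity) h4 m

/-- `u` escapes from `A`: no edge through `u` has its first `p` vertices inside `A`. -/
def Escp {n r : ℕ} (D : Orientation n r) (p : ℕ) (A : Finset (Fin n)) (u : Fin n) : Prop :=
  u ∉ A ∧ ∀ E : Finset (Fin n), E.card = r → u ∈ E → ∃ i : Fin r, (i : ℕ) < p ∧ D.ord E i ∉ A

theorem Escp.anti {n r p : ℕ} (D : Orientation n r) (A B : Finset (Fin n)) (u : Fin n)
    (hAB : A ⊆ B) (h : Escp D p B u) : Escp D p A u := by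
  refine ⟨fun hu => h.1 (hAB hu), fun E hE huE => ?_⟩
  obtain ⟨i, hi, hi2⟩ := h.2 E hE huE
  exact ⟨i, hi, fun hA => hi2 (hAB hA)⟩

theorem not_dominating {n r p : ℕ} (D : Orientation n r) (A : Finset (Fin n))
    (h : ¬ IsPDominating D p A) : ∃ u, Escp D p A u := by
  unfold IsPDominating at h
  push Not at h
  obtain ⟨u, hu, h2⟩ := h
  exact ⟨u, hu, h2⟩

/-- The contradiction: no copy of a tournament with the property `S_p` in the escape relation. -/
theorem no_copy {n r p : ℕ} (hpr : p < r) (D : Orientation n r) (T : Fin r → Fin r → Prop)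
    (hT : IsTour T) (hS : Schutte p T) (v : Fin r → Fin n)
    (hv : ∀ i, ∃ A : Finset (Fin n), (∀ j, T j i → v j ∈ A) ∧ Escp D p A (v i)) : False := by
  classical
  have hinj : Function.Injective v := by
    intro i j hij
    by_contra hne
    have key : ∀ i j, v i = v j → T j i → False := by
      intro i j hij hT'
      obtain ⟨A, hA, hE⟩ := hv i
      exact hE.1 (hij ▸ hA j hT')
    by_cases h : T j i
    · exact key i j hij h
    · exact key j i hij.symm ((hT.2 i j hne).2 h)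
  set E : Finset (Fin n) := univ.image v with hE
  have hEc : E.card = r := by
    rw [hE, Finset.card_image_of_injective _ hinj]
    simp
  have hσ : ∀ l : Fin r, ∃ i : Fin r, v i = D.ord E l := by
    intro l
    have := D.mem E hEc l
    rw [hE, mem_image] at this
    obtain ⟨i, -, hi⟩ := this
    exact ⟨i, hi⟩
  choose σ hσ using hσ
  have hσinj : Function.Injective σ := by
    intro l l' h
    apply D.inj E hEc
    rw [← hσ l, ← hσ l', h]
  set J : Finset (Fin r) := (univ : Finset (Fin p)).image (fun l => σ (Fin.castLE hpr.le l)) with hJ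
  have hJc : J.card = p := by
    rw [hJ, Finset.card_image_of_injective]
    · simp
    · intro l l' h
      exact Fin.castLE_injective hpr.le (hσinj h)
  obtain ⟨i, hi, hiJ⟩ := hS J hJc
  obtain ⟨A, hA, hEsc⟩ := hv i
  obtain ⟨l, hl, hlA⟩ := hEsc.2 E hEc (by rw [hE]; exact mem_image_of_mem _ (mem_univ _))
  apply hlA
  rw [← hσ l]
  apply hA
  apply hiJ
  rw [hJ, mem_image]
  exact ⟨⟨l, hl⟩, mem_univ _, rfl⟩

/-- The finite upper bound. -/
theorem GammaUp_le {r p c n : ℕ} (hpr : p < r) (hc : 2 ≤ c) (T : Fin r → Fin r → Prop)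
    (hT : IsTour T) (hS : Schutte p T)
    (hn : Real.log n ≤
      2 * ((8 * r * c ^ 2 : ℕ) : ℝ) ^ (2 * (2 * (r + 1) ^ 2) + 1) * Real.log c) :
    GammaUp p n r ≤ 4 * r * (8 * r * c ^ 2) ^ (2 * (2 * (r + 1) ^ 2) + 1) := by
  classical
  apply GammaUp_le_of
  intro D
  by_contra hcon
  push Not at hcon
  obtain ⟨v, hv⟩ := embed (m := r) (c := c) (by omega) hc (Escp D p) (Escp.anti D) (by
    intro A hA
    apply not_dominating
    intro hdom
    exact absurd hA (not_le.2 (hcon A hdom))) T hT.asymm (by rw [Fintype.card_fin]; exact hn)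
  exact no_copy hpr D T hT hS v hv

/-- The asymptotic upper bound. -/
theorem GammaUp_isBigO {r p : ℕ} (hpr : p < r) (T : Fin r → Fin r → Prop)
    (hT : IsTour T) (hS : Schutte p T) :
    (fun n : ℕ => (GammaUp p n r : ℝ)) =O[Filter.atTop]
      (fun n : ℕ => Real.log (n : ℝ) / Real.log (Real.log (n : ℝ))) := by
  set a : ℕ := 2 * (2 * (r + 1) ^ 2) + 1 with ha
  have ha0 : (0 : ℝ) < a := by exact_mod_cast (by omega : 0 < a)
  have ha1 : (1 : ℝ) ≤ a := by exact_mod_cast (by omega : 1 ≤ a)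
  have hr1 : (1 : ℝ) ≤ r := by exact_mod_cast (by omega : 1 ≤ r)
  rw [Asymptotics.isBigO_iff]
  refine ⟨4 * r * (8 * r) ^ a * (2 ^ (2 * a) * (4 * a)), ?_⟩
  have hlog : Filter.Tendsto (fun n : ℕ => Real.log (n : ℝ)) Filter.atTop Filter.atTop :=
    Real.tendsto_log_atTop.comp tendsto_natCast_atTop_atTop
  filter_upwards [hlog.eventually_gt_atTop 1] with n hn
  set l : ℝ := Real.log n with hl
  have hl0 : 0 < l := by linarith
  have hll : 0 < Real.log l := Real.log_pos hn
  set x : ℝ := 4 * a * l / Real.log l with hx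
  have hsq : 1 < Real.sqrt l := by
    rw [Real.lt_sqrt (by norm_num)]
    linarith
  have hlogl : Real.log l ≤ 2 * Real.sqrt l := by
    have h1 : Real.log l = 2 * Real.log (Real.sqrt l) := by
      rw [Real.log_sqrt hl0.le]
      ring
    have h2 := Real.log_le_sub_one_of_pos (by linarith : 0 < Real.sqrt l)
    rw [h1]
    linarith
  have hxs : Real.sqrt l ≤ x := by
    rw [hx, le_div_iff₀ hll]
    have h1 : Real.sqrt l * Real.log l ≤ Real.sqrt l * (2 * Real.sqrt l) :=
      mul_le_mul_of_nonneg_left hlogl (by positivity)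
    have h2 : Real.sqrt l * Real.sqrt l = l := Real.mul_self_sqrt hl0.le
    nlinarith
  have hx1 : 1 < x := lt_of_lt_of_le hsq hxs
  have hx0 : 0 < x := by linarith
  set z : ℝ := x ^ (1 / (2 * a : ℝ)) with hz
  have hz1 : 1 < z := Real.one_lt_rpow hx1 (by positivity)
  have hz2 : z ^ (2 * a) = x := by
    rw [hz, ← Real.rpow_natCast, ← Real.rpow_mul hx0.le]
    push_cast
    rw [one_div, inv_mul_cancel₀ (by positivity), Real.rpow_one]
  set c : ℕ := ⌈z⌉₊ with hc
  have hc1 : z ≤ c := Nat.le_ceil z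
  have hc2 : (c : ℝ) < z + 1 := Nat.ceil_lt_add_one (by linarith)
  have hc3 : 2 ≤ c := Nat.lt_ceil.2 (by exact_mod_cast hz1)
  have hc0 : (0 : ℝ) < c := by linarith
  have hc4 : x ≤ (c : ℝ) ^ (2 * a) := by
    rw [← hz2]
    exact pow_le_pow_left₀ (by linarith) hc1 _
  have hc5 : (c : ℝ) ^ (2 * a) ≤ 2 ^ (2 * a) * x := by
    rw [← hz2, ← mul_pow]
    exact pow_le_pow_left₀ (by linarith) (by linarith) _
  have hlogc : Real.log l / (4 * a) ≤ Real.log c := by
    have h1 : Real.log x ≤ 2 * a * Real.log c := by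
      have h2 := Real.log_le_log hx0 hc4
      rw [Real.log_pow] at h2
      push_cast at h2
      exact h2
    have h3 : Real.log l / 2 ≤ Real.log x := by
      rw [← Real.log_sqrt hl0.le]
      exact Real.log_le_log (by linarith) hxs
    rw [div_le_iff₀ (by positivity)]
    linarith
  have hpow : ((8 * r * c ^ 2 : ℕ) : ℝ) ^ a = (8 * r) ^ a * (c : ℝ) ^ (2 * a) := by
    push_cast
    rw [mul_pow, ← pow_mul]
  have hmain : Real.log n ≤
      2 * ((8 * r * c ^ 2 : ℕ) : ℝ) ^ (2 * (2 * (r + 1) ^ 2) + 1) * Real.log c := by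
    rw [← ha, ← hl, hpow]
    have h1 : (1 : ℝ) ≤ (8 * r) ^ a := one_le_pow₀ (by linarith)
    have h2 : x ≤ (8 * r) ^ a * (c : ℝ) ^ (2 * a) := by nlinarith
    have h3 : x * (Real.log l / (4 * a)) = l := by
      rw [hx]
      field_simp
    have h4 : x * (Real.log l / (4 * a)) ≤ (8 * r) ^ a * (c : ℝ) ^ (2 * a) * Real.log c :=
      mul_le_mul h2 hlogc (by positivity) (by positivity)
    have h5 : 0 ≤ (8 * r) ^ a * (c : ℝ) ^ (2 * a) * Real.log c := by
      refine le_trans ?_ h4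
      positivity
    linarith
  have hfin := GammaUp_le hpr hc3 T hT hS hmain
  have hfin' : (GammaUp p n r : ℝ) ≤ 4 * r * ((8 * r) ^ a * (c : ℝ) ^ (2 * a)) := by
    have h1 : (GammaUp p n r : ℝ) ≤ ((4 * r * (8 * r * c ^ 2) ^ a : ℕ) : ℝ) := by
      exact_mod_cast hfin
    rw [← hpow]
    refine le_trans h1 (le_of_eq ?_)
    push_cast
    ring
  rw [Real.norm_of_nonneg (Nat.cast_nonneg _), Real.norm_of_nonneg (by positivity)]
  calc (GammaUp p n r : ℝ) ≤ 4 * r * ((8 * r) ^ a * (c : ℝ) ^ (2 * a)) := hfin'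
    _ ≤ 4 * r * ((8 * r) ^ a * (2 ^ (2 * a) * x)) := by gcongr
    _ = 4 * r * (8 * r) ^ a * (2 ^ (2 * a) * (4 * a)) * (l / Real.log l) := by
        rw [hx]
        ring

end Pool.Agent.Helper19.Dom
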