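import Mathlib
import Pool.Agent.Helper77.PDomLower
import Pool.Agent.Helper19.Dom.Schutte

set_option autoImplicit false

/-!
Facts on tournaments with the Schütte property, and the lower bound `log n / log 4`.
-/

namespace Pool.Agent.Helper19.Dom

open Finset Pool.Agent.Helper39

/-- There is a tournament on `r` vertices with the Schütte property `S_p`. -/
def HasSchutte (p r : ℕ) : Prop := ∃ T : Fin r → Fin r → Prop, IsTour T ∧ Schutte p T

/-- Blow-up of a tournament. -/
theorem HasSchutte.mono {p r r' : ℕ} (hpr : p ≤ r) (hr : 0 < r) (hrr : r ≤ r')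
    (h : HasSchutte p r) : HasSchutte p r' := by
  classical
  obtain ⟨T, hT, hS⟩ := h
  let π : Fin r' → Fin r := fun i => if h : (i : ℕ) < r then ⟨i, h⟩ else ⟨0, hr⟩
  have hπ : ∀ i : Fin r, π (Fin.castLE hrr i) = i := by
    intro i
    simp only [π, Fin.val_castLE, i.2, dif_pos]
  refine ⟨fun i j => T (π i) (π j) ∨ (π i = π j ∧ i < j), ⟨?_, ?_⟩, ?_⟩
  · intro u h
    rcases h with h | h
    · exact hT.1 _ h
    · exact lt_irrefl _ h.2
  · intro u v huv
    change (T (π u) (π v) ∨ (π u = π v ∧ u < v)) ↔ ¬ (T (π v) (π u) ∨ (π v = π u ∧ v < u))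
    by_cases h : π u = π v
    · rw [h]
      simp only [hT.1, false_or, true_and]
      constructor
      · intro h1
        exact not_lt.2 h1.le
      · intro h1
        exact lt_of_le_of_ne (not_lt.1 h1) huv
    · simp only [h, Ne.symm h, false_and, or_false]
      exact hT.2 _ _ h
  · intro J hJ
    obtain ⟨J', hJJ', -, hJ'⟩ := exists_subsuperset_card_eq (s := J.image π) (t := univ) (n := p)
      (subset_univ _) (Finset.card_image_le.trans hJ.le) (by simpa using hpr)
    obtain ⟨i, hi, hiJ⟩ := hS J' hJ'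
    refine ⟨Fin.castLE hrr i, ?_, ?_⟩
    · intro h
      apply hi
      apply hJJ'
      rw [mem_image]
      exact ⟨_, h, hπ i⟩
    · intro j hj
      left
      rw [hπ]
      exact hiJ _ (hJJ' (mem_image_of_mem _ hj))

/-- Smaller `p`. -/
theorem HasSchutte.anti {p k r : ℕ} (hpk : p ≤ k) (hkr : k ≤ r) (h : HasSchutte k r) :
    HasSchutte p r := by
  obtain ⟨T, hT, hS⟩ := h
  refine ⟨T, hT, fun J hJ => ?_⟩
  obtain ⟨J', hJJ', -, hJ'⟩ := exists_subsuperset_card_eq (s := J) (t := univ) (n := k)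
    (subset_univ _) (by omega) (by simpa using hkr)
  obtain ⟨i, hi, hiJ⟩ := hS J' hJ'
  exact ⟨i, fun h => hi (hJJ' h), fun j hj => hiJ j (hJJ' hj)⟩

/-- Esther and George Szekeres. -/
theorem not_hasSchutte {p r : ℕ} (hp : 1 ≤ p) (hpr : p ≤ r) (hr : r + 2 ≤ (p + 2) * 2 ^ (p - 1)) :
    ¬ HasSchutte p r := by
  classical
  rintro ⟨T, hT, hS⟩
  obtain ⟨A, -, hAc, hA⟩ := Helper77.PDomTheta.tournament_dom (V := Fin r) (fun i j => T j i) (by
    intro u v huv
    exact hT.2 v u huv.symm) p hp univ (by simpa using hr)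
  obtain ⟨J, hAJ, -, hJ⟩ := exists_subsuperset_card_eq (s := A) (t := univ) (n := p)
    (subset_univ _) hAc (by simpa using hpr)
  obtain ⟨i, hi, hiJ⟩ := hS J hJ
  obtain ⟨s, hs, hsi⟩ := hA i (mem_univ _) (fun h => hi (hAJ h))
  exact hT.asymm _ _ hsi (hiJ s (hAJ hs))

/-- Erdős. -/
theorem hasSchutte_large {p r : ℕ} (hr : 4 ^ (max p 7) ≤ r) : HasSchutte p r := by
  classical
  set k := max p 7 with hk
  have hk7 : 7 ≤ k := le_max_right _ _
  have hk4 : k ≤ 4 ^ k := (Nat.lt_pow_self (by norm_num)).le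
  obtain ⟨T, hT, hTS⟩ := Helper77.PDomTheta.exists_tournament (4 ^ k) k
    (Helper77.PDomTheta.union_bound (4 ^ k) k hk7 le_rfl (Nat.pow_lt_pow_right (by norm_num)
      (by omega)))
  have h1 : HasSchutte k (4 ^ k) := by
    refine ⟨fun i j => i ≠ j ∧ T j i, ⟨fun u h => h.1 rfl, fun u v huv => ?_⟩, fun J hJ => ?_⟩
    · simp only [huv, ne_eq, not_false_eq_true, true_and, huv.symm]
      exact hT v u huv.symm
    · obtain ⟨u, hu, hu2⟩ := hTS J hJ
      refine ⟨u, hu, fun j hj => ?_⟩
      have hne : j ≠ u := by rintro rfl; exact hu hj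
      exact ⟨hne, (hT u j hne.symm).2 (hu2 j hj)⟩
  exact ((h1.mono hk4 (by positivity) hr).anti (le_max_left _ _) (by omega))

theorem hasSchutte_one_iff {r : ℕ} (hr : 1 < r) : HasSchutte 1 r ↔ 3 ≤ r := by
  constructor
  · intro h
    by_contra hcon
    have h2 : r = 2 := by omega
    subst h2
    obtain ⟨T, hT, hS⟩ := h
    obtain ⟨i, hi, hi2⟩ := hS {0} rfl
    obtain ⟨j, hj, hj2⟩ := hS {1} rfl
    have e1 : i = 1 := by
      have := hi
      rw [Finset.mem_singleton] at this
      omega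
    have e2 : j = 0 := by
      have := hj
      rw [Finset.mem_singleton] at this
      omega
    subst e1 e2
    exact hT.asymm _ _ (hi2 0 (by simp)) (hj2 1 (by simp))
  · intro h
    have h3 : HasSchutte 1 3 := by
      refine ⟨fun i j => j = i + 1, ⟨by decide, by decide⟩, fun J hJ => ?_⟩
      obtain ⟨a, rfl⟩ := Finset.card_eq_one.1 hJ
      exact ⟨a + 1, by revert a; decide, by simp⟩
    exact h3.mono (by norm_num) (by norm_num) h

theorem hasSchutte_two_iff {r : ℕ} (hr : 2 < r) : HasSchutte 2 r ↔ 7 ≤ r := by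
  constructor
  · intro h
    by_contra hcon
    exact not_hasSchutte (by norm_num) hr.le (by norm_num; omega) h
  · intro h
    have h3 : HasSchutte 2 7 := by
      refine ⟨fun i j => j - i = 1 ∨ j - i = 2 ∨ j - i = 4, ⟨by decide, by decide⟩, fun J hJ => ?_⟩
      obtain ⟨a, b, hab, rfl⟩ := Finset.card_eq_two.1 hJ
      have key : ∀ a b : Fin 7, ∃ i : Fin 7, (i ≠ a ∧ i ≠ b) ∧
          (i - a = 1 ∨ i - a = 2 ∨ i - a = 4) ∧ (i - b = 1 ∨ i - b = 2 ∨ i - b = 4) := by decide
      obtain ⟨i, h1, h2, h3⟩ := key a b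
      refine ⟨i, by simpa using h1, ?_⟩
      intro j hj
      simp only [mem_insert, mem_singleton] at hj
      rcases hj with rfl | rfl
      · exact h2
      · exact h3
    exact h3.mono (by norm_num) (by norm_num) h

/-- Quadratic residues modulo 19, as a bit mask. -/
def qr19 (i j : Fin 19) : Bool := Nat.testBit 199410 ((j - i : Fin 19) : ℕ)

theorem hasSchutte_three_iff {r : ℕ} (hr : 3 < r) : HasSchutte 3 r ↔ 19 ≤ r := by
  constructor
  · intro h
    by_contra hcon
    exact not_hasSchutte (by norm_num) hr.le (by norm_num; omega) h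
  · intro h
    have h3 : HasSchutte 3 19 := by
      refine ⟨fun i j => qr19 i j = true, ⟨by decide +kernel, by decide +kernel⟩, fun J hJ => ?_⟩
      obtain ⟨a, b, c, -, -, -, rfl⟩ := Finset.card_eq_three.1 hJ
      have key : ∀ a b c : Fin 19, ∃ i : Fin 19, (i ≠ a ∧ i ≠ b ∧ i ≠ c) ∧
          qr19 a i = true ∧ qr19 b i = true ∧ qr19 c i = true := by decide +kernel
      obtain ⟨i, h1, h2, h3, h4⟩ := key a b c
      refine ⟨i, by simpa using h1, ?_⟩
      intro j hj
      simp only [mem_insert, mem_singleton] at hj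
      rcases hj with rfl | rfl | rfl
      · exact h2
      · exact h3
      · exact h4
    exact h3.mono (by norm_num) (by norm_num) h

/-- The lower bound when no tournament on `r` vertices has the property `S_p`. -/
theorem lower {n r p : ℕ} (hpr : p ≤ r) (hno : ¬ HasSchutte p r) (hn : 4 ^ 7 ≤ n) :
    Real.log n / Real.log 4 ≤ (GammaUp p n r : ℝ) := by
  classical
  set k := Nat.log 4 n with hk
  have hn0 : n ≠ 0 := by
    rintro rfl
    norm_num at hn
  have hk7 : 7 ≤ k := (Nat.le_log_iff_pow_le (by norm_num) hn0).2 hn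
  have h1 : 4 ^ k ≤ n := Nat.pow_log_le_self 4 hn0
  have h2 : n < 4 ^ (k + 1) := Nat.lt_pow_succ_log_self (by norm_num) n
  have hkn : k ≤ n := by
    have h3 : k < 2 ^ k := Nat.lt_two_pow_self
    have h4 : (2 : ℕ) ^ k ≤ 4 ^ k := Nat.pow_le_pow_left (by norm_num) k
    omega
  obtain ⟨T, hT, hTS⟩ := Helper77.PDomTheta.exists_tournament n k
    (Helper77.PDomTheta.union_bound n k hk7 h1 h2)
  have hex : ∀ E : Finset (Fin n), ∃ A : Finset (Fin n), E.card = r →
      (A ⊆ E ∧ A.card = p) ∧ ∀ u ∈ E, u ∉ A → ∃ s ∈ A, T s u := by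
    intro E
    by_cases hE : E.card = r
    · let e := E.orderEmbOfFin hE
      by_contra hcon
      push Not at hcon
      apply hno
      refine ⟨fun i j => i ≠ j ∧ T (e j) (e i), ⟨fun u h => h.1 rfl, fun u v huv => ?_⟩,
        fun J hJ => ?_⟩
      · simp only [huv, ne_eq, not_false_eq_true, true_and, huv.symm]
        exact hT _ _ (fun h => huv (e.injective h).symm)
      · obtain ⟨-, h3⟩ := hcon (J.map e.toEmbedding)
        obtain ⟨u, huE, huJ, hu⟩ := h3 ⟨by
          intro x hx
          rw [mem_map] at hx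
          obtain ⟨j, -, rfl⟩ := hx
          exact orderEmbOfFin_mem E hE j, by rw [card_map, hJ]⟩
        have hur : u ∈ Set.range e := by
          rw [range_orderEmbOfFin]
          exact huE
        obtain ⟨i, rfl⟩ := hur
        refine ⟨i, fun hi => huJ (mem_map_of_mem e.toEmbedding hi), fun j hj => ?_⟩
        have hij : j ≠ i := by
          rintro rfl
          exact huJ (mem_map_of_mem e.toEmbedding hj)
        refine ⟨hij, ?_⟩
        rw [hT _ _ (fun h => hij (e.injective h).symm)]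
        exact hu (e j) (mem_map_of_mem e.toEmbedding hj)
    · exact ⟨∅, fun h => absurd h hE⟩
  choose h hh using hex
  obtain ⟨D, hD⟩ := Helper77.PDomTheta.exists_orientation (Nat.pos_of_ne_zero hn0) hpr h
    (fun E hE => (hh E hE).1)
  have hdom : ∀ S : Finset (Fin n), IsPDominating D p S → k + 1 ≤ S.card := by
    intro S hS
    by_contra hc
    have hSk : S.card ≤ k := by omega
    obtain ⟨S', hSS', -, hS'c⟩ := exists_subsuperset_card_eq (subset_univ S) hSk (by simpa using hkn)
    obtain ⟨u, huS', hu⟩ := hTS S' hS'c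
    obtain ⟨E, hEc, huE, hEi⟩ := hS u (fun h => huS' (hSS' h))
    have hES : h E ⊆ S := by
      intro x hx
      obtain ⟨i, hi, rfl⟩ := hD E hEc x hx
      exact hEi i hi
    obtain ⟨s, hs, hsu⟩ := (hh E hEc).2 u huE (fun h => huS' (hSS' (hES h)))
    exact hu s (hSS' (hES hs)) hsu
  have hfin : k + 1 ≤ GammaUp p n r := le_GammaUp_of D hdom
  have hlog4 : 0 < Real.log 4 := Real.log_pos (by norm_num)
  rw [div_le_iff₀ hlog4]
  have h5 : Real.log n ≤ Real.log ((4 : ℝ) ^ (k + 1)) := by
    apply Real.log_le_log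
    · exact_mod_cast Nat.pos_of_ne_zero hn0
    · exact_mod_cast h2.le
  rw [Real.log_pow] at h5
  have h6 : ((k + 1 : ℕ) : ℝ) ≤ (GammaUp p n r : ℝ) := by exact_mod_cast hfin
  nlinarith

end Pool.Agent.Helper19.Dom
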